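import Pool.Agent.AT5.Stmts2
import Pool.Agent.Helper83_AT3.CO1
import Pool.Agent.Helper62_AT3.CO2

/-!
# Squad AT5, row CO3: the inner product of the vectors `χ(u s b)`, `χ(u s' b)`
-/

open scoped BigOperators

set_option linter.unusedSectionVars false

noncomputable section

namespace Pool.Agent.PP.T5.H48

open Pool.Agent.Helper51_AWC Pool.Agent.Helper79_WRA Pool.Agent.PP Pool.Agent.PP.KF
open Pool.Agent.PP.K9 Pool.Agent.PP.K9.H97 Pool.Agent.PP.H75 Pool.Agent.PP.T3 Pool.Agent.PP.T2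

attribute [local instance] Ideal.Quotient.field

section kern

variable {G : Type} [Group G] {M : Ideal (integralClosure ℤ ℂ)} [M.IsMaximal]

theorem ife_fin {H : Type} [Group H] [Finite H] (b : H → FF M) : (IrrE M b).Finite := by
  have := Fintype.ofFinite H
  exact K9.H25.irrE_finite M b

theorem kr_eq [Finite G] (C : Subgroup G) (b : G → FF M) (s g : G) :
    kr M C b s g = ∑ κ ∈ (ife_fin (fun t : C => b t)).toFinset,
      H75.ext0 C κ s * starRingEnd ℂ (H75.ext0 C κ g) := by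
  unfold kr
  rw [finsum_mem_eq_finite_toFinset_sum _ (ife_fin (fun t : C => b t))]

theorem kr_right [Finite G] {C : Subgroup G} {b : G → FF M} {s g : G} (hg : g ∉ C) :
    kr M C b s g = 0 := by
  rw [kr_eq]
  refine Finset.sum_eq_zero fun κ _ => ?_
  rw [H75.ext0_supp C κ g hg, map_zero, mul_zero]

theorem kr_coe [Finite G] (C : Subgroup G) (b : G → FF M) (s g : C) :
    kr M C b s g = ∑ᶠ κ ∈ IrrE M (fun t : C => b t), κ s * κ g⁻¹ := by
  unfold kr
  refine finsum_mem_congr rfl fun κ hκ => ?_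
  rw [H75.ext0_apply, H75.ext0_apply, H94.irr_star hκ.1]

theorem reg_coe' {ℓ : ℕ} {C : Subgroup G} {s : C} : Reg ℓ (s : G) ↔ Reg ℓ s := by
  unfold Reg
  rw [Subgroup.orderOf_coe]

theorem reg_inv' {ℓ : ℕ} {s : G} : Reg ℓ s⁻¹ ↔ Reg ℓ s := by
  unfold Reg
  rw [orderOf_inv]

/-- the kernel vanishes at the singular elements -/
theorem kr_sing [Finite G] {ℓ : ℕ} [Fact ℓ.Prime] (hM : (ℓ : integralClosure ℤ ℂ) ∈ M)
    {C : Subgroup G} {b : G → FF M} (hb : Ix C b) {s g : G} (hsC : s ∈ C) (hs : Reg ℓ s)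
    (hg : ¬ Reg ℓ g) : kr M C b s g = 0 := by
  by_cases hgC : g ∈ C
  · have h1 := kr_coe C b ⟨s, hsC⟩ ⟨g, hgC⟩
    have h2 := T3.H62.wbo_ ℓ M hM C (fun t : C => b t) hb.idem (⟨s, hsC⟩ : C)⁻¹ (⟨g, hgC⟩ : C)⁻¹
      (reg_inv'.2 (reg_coe'.1 hs)) (fun h => hg (reg_coe'.2 (reg_inv'.1 h)))
    simp only [inv_inv] at h2
    rw [← h2]
    exact h1
  · exact kr_right hgC

theorem ext0_cj [Finite G] (C : Subgroup G) {κ : C → ℂ} (hκ : κ ∈ Irr C) {c : G} (hc : c ∈ C) (g : G) :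
    H75.ext0 C κ (c * g * c⁻¹) = H75.ext0 C κ g := by
  by_cases hg : g ∈ C
  · have h1 := irr_conj hκ ⟨g, hg⟩ ⟨c, hc⟩
    have h2 := H75.ext0_apply C κ ⟨g, hg⟩
    have h3 := H75.ext0_apply C κ (⟨c, hc⟩ * ⟨g, hg⟩ * (⟨c, hc⟩ : C)⁻¹)
    rw [h1] at h3
    exact h3.trans h2.symm
  · rw [H75.ext0_supp C κ g hg, H75.ext0_supp]
    intro h
    apply hg
    have h1 := C.mul_mem (C.mul_mem (C.inv_mem hc) h) hc
    have h2 : c⁻¹ * (c * g * c⁻¹) * c = g := by group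
    rwa [h2] at h1

theorem kr_cj_right [Finite G] {C : Subgroup G} {b : G → FF M} (s g : G) {c : G} (hc : c ∈ C) :
    kr M C b s (c * g * c⁻¹) = kr M C b s g := by
  unfold kr
  refine finsum_mem_congr rfl fun κ hκ => ?_
  rw [ext0_cj C hκ.1 hc]

theorem kr_cj_left [Finite G] {C : Subgroup G} {b : G → FF M} (s g : G) {c : G} (hc : c ∈ C) :
    kr M C b (c * s * c⁻¹) g = kr M C b s g := by
  unfold kr
  refine finsum_mem_congr rfl fun κ hκ => ?_
  rw [ext0_cj C hκ.1 hc]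

theorem ext0_sum [Fintype G] (C : Subgroup G) [Fintype C] (κ κ' : C → ℂ) :
    ∑ g, H75.ext0 C κ g * starRingEnd ℂ (H75.ext0 C κ' g) =
      ∑ c : C, κ c * starRingEnd ℂ (κ' c) := by
  classical
  have h1 : ∑ g, H75.ext0 C κ g * starRingEnd ℂ (H75.ext0 C κ' g) =
      ∑ g ∈ Finset.univ.filter (fun g => g ∈ C),
        H75.ext0 C κ g * starRingEnd ℂ (H75.ext0 C κ' g) := by
    rw [Finset.sum_filter]
    refine Finset.sum_congr rfl fun g _ => ?_
    by_cases hg : g ∈ C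
    · rw [if_pos hg]
    · rw [if_neg hg, H75.ext0_supp C κ g hg, zero_mul]
  rw [h1]
  refine (Finset.sum_bij (fun (c : C) _ => (c : G)) (fun c _ => ?_) (fun c _ d _ h => Subtype.ext h)
    (fun g hg => ⟨⟨g, (Finset.mem_filter.1 hg).2⟩, Finset.mem_univ _, rfl⟩) (fun c _ => ?_)).symm
  · exact Finset.mem_filter.2 ⟨Finset.mem_univ _, c.2⟩
  · rw [H75.ext0_apply, H75.ext0_apply]

/-- the kernel is a reproducing kernel -/
theorem kr_mul [Finite G] (C : Subgroup G) (b : G → FF M) (s s' : G) :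
    ∑ᶠ g, kr M C b s g * starRingEnd ℂ (kr M C b s' g) = Nat.card C * kr M C b s s' := by
  classical
  have := Fintype.ofFinite G
  have := Fintype.ofFinite C
  rw [finsum_eq_sum_of_fintype]
  have e1 : ∀ g, kr M C b s g * starRingEnd ℂ (kr M C b s' g) =
      ∑ κ ∈ (ife_fin (fun t : C => b t)).toFinset, ∑ κ' ∈ (ife_fin (fun t : C => b t)).toFinset,
        (H75.ext0 C κ s * starRingEnd ℂ (H75.ext0 C κ' s')) *
          (H75.ext0 C κ' g * starRingEnd ℂ (H75.ext0 C κ g)) := by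
    intro g
    rw [kr_eq, kr_eq, map_sum, Finset.sum_mul_sum]
    refine Finset.sum_congr rfl fun κ _ => Finset.sum_congr rfl fun κ' _ => ?_
    rw [map_mul, starRingEnd_self_apply]
    ring
  rw [Finset.sum_congr rfl fun g _ => e1 g, Finset.sum_comm]
  have e2 : ∀ κ ∈ (ife_fin (fun t : C => b t)).toFinset,
      ∑ g, ∑ κ' ∈ (ife_fin (fun t : C => b t)).toFinset,
        (H75.ext0 C κ s * starRingEnd ℂ (H75.ext0 C κ' s')) *
          (H75.ext0 C κ' g * starRingEnd ℂ (H75.ext0 C κ g)) =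
      Nat.card C * (H75.ext0 C κ s * starRingEnd ℂ (H75.ext0 C κ s')) := by
    intro κ hκ
    rw [Finset.sum_comm]
    simp only [← Finset.mul_sum, ext0_sum]
    rw [Finset.sum_eq_single_of_mem κ hκ]
    · have h1 : ∑ c : C, κ c * starRingEnd ℂ (κ c) = Nat.card C := by
        have h2 := irr_orth_self (((Set.Finite.mem_toFinset _).1 hκ).1)
        rw [Nat.card_eq_fintype_card, ← h2]
        exact Finset.sum_congr rfl fun c _ => by
          rw [H94.irr_star (((Set.Finite.mem_toFinset _).1 hκ).1)]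
      rw [h1]
      ring
    · intro κ' hκ' hne
      have h1 : ∑ c : C, κ' c * starRingEnd ℂ (κ c) = 0 := by
        have h2 := irr_orth_ne (((Set.Finite.mem_toFinset _).1 hκ').1)
          (((Set.Finite.mem_toFinset _).1 hκ).1) hne
        rw [← h2]
        exact Finset.sum_congr rfl fun c _ => by
          rw [H94.irr_star (((Set.Finite.mem_toFinset _).1 hκ).1)]
      rw [h1, mul_zero]
  rw [Finset.sum_congr rfl e2, ← Finset.mul_sum, kr_eq]

end kern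

theorem drop_P {α : Type} {P : α → Prop} {F : α → ℂ} (h : ∀ c, ¬ P c → F c = 0) :
    ∑ᶠ (c : α) (_ : P c), F c = ∑ᶠ c, F c := by
  classical
  refine finsum_congr fun c => ?_
  rw [finsum_eq_if]
  by_cases hc : P c
  · rw [if_pos hc]
  · rw [if_neg hc, h c hc]

theorem chv_eq {G : Type} [Group G] [Fintype G] (a χ : G → ℂ) : chv a χ = ∑ g, a g * χ g := by
  unfold chv
  rw [finsum_eq_sum_of_fintype]

theorem co3 (hK : KerStmt) : Co3Stmt := by
  intro ℓ _ M _ hM G _ _ u hu b hb s hsC hs s' hsC' hs'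
  classical
  have := Fintype.ofFinite G
  obtain ⟨N, -, hN⟩ := H27.prt ℓ G
  have huc : ∀ c ∈ Cu u, u * c = c * u := fun c hc =>
    (Subgroup.mem_centralizer_singleton_iff.1 hc).symm
  have hm : ∀ {t : G}, t ∈ Cu u → Reg ℓ t → ∀ g, kr M (Cu u) b t g ≠ 0 → g ∈ Cu u ∧ Reg ℓ g := by
    intro t htC ht g hg
    refine ⟨?_, ?_⟩
    · by_contra h
      exact hg (kr_right h)
    · by_contra h
      exact hg (kr_sing hM hb htC ht h)
  set n : ℂ := (Nat.card (Cu u) : ℂ)⁻¹ with hn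
  have hns : starRingEnd ℂ n = n := by
    rw [hn, map_inv₀, map_natCast]
  -- the values
  have e0 : ∀ t ∈ Cu u, Reg ℓ t → ∀ χ ∈ Irr G, gv M (Cu u) (u * t) b χ =
      ∑ c, n * kr M (Cu u) b t c * χ (u * c) := by
    intro t htC ht χ hχ
    rw [hK ℓ M hM G u u huc b hb t htC ht χ hχ, drop_P, finsum_eq_sum_of_fintype, Finset.mul_sum]
    · exact Finset.sum_congr rfl fun c _ => by rw [hn]; ring
    · intro c hc
      have : kr M (Cu u) b t c = 0 := by
        by_contra h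
        exact hc (hm htC ht c h)
      rw [this, zero_mul]
  have e1 : ∀ χ ∈ Irr G, gv M (Cu u) (u * s) b χ =
      chv (fun g => n * kr M (Cu u) b s (u⁻¹ * g)) χ := by
    intro χ hχ
    rw [e0 s hsC hs χ hχ, chv_eq, ← Equiv.sum_comp (Equiv.mulLeft u)
      (fun g => n * kr M (Cu u) b s (u⁻¹ * g) * χ g)]
    refine Finset.sum_congr rfl fun g _ => ?_
    simp only [Equiv.coe_mulLeft, inv_mul_cancel_left]
  have e2 : ∀ χ ∈ Irr G, starRingEnd ℂ (gv M (Cu u) (u * s') b χ) =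
      chv (fun g => n * starRingEnd ℂ (kr M (Cu u) b s' (u⁻¹ * g⁻¹))) χ := by
    intro χ hχ
    rw [e0 s' hsC' hs' χ hχ, chv_eq, map_sum]
    refine Fintype.sum_equiv ((Equiv.mulLeft u).trans (Equiv.inv G)) _ _ fun g => ?_
    simp only [Equiv.trans_apply, Equiv.coe_mulLeft, Equiv.inv_apply, inv_inv,
      inv_mul_cancel_left, map_mul, hns]
    rw [H94.irr_star hχ]
  have e3 : ∑ᶠ χ ∈ Irr G, gv M (Cu u) (u * s) b χ * starRingEnd ℂ (gv M (Cu u) (u * s') b χ) =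
      ∑ᶠ χ ∈ Irr G, chv (fun g => n * kr M (Cu u) b s (u⁻¹ * g)) χ *
        chv (fun g => n * starRingEnd ℂ (kr M (Cu u) b s' (u⁻¹ * g⁻¹))) χ := by
    refine finsum_mem_congr rfl fun χ hχ => ?_
    rw [e1 χ hχ, e2 χ hχ]
  rw [e3, Pool.Agent.PP.KF.trc, finsum_eq_sum_of_fintype]
  simp only [finsum_eq_sum_of_fintype]
  rw [← Finset.sum_filter_add_sum_filter_not Finset.univ (fun g => g ∈ Cu u)]
  have hc : ∑ x ∈ Finset.univ.filter (fun g => ¬ g ∈ Cu u),
      ∑ g, n * kr M (Cu u) b s (u⁻¹ * g) *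
        (n * starRingEnd ℂ (kr M (Cu u) b s' (u⁻¹ * (x⁻¹ * g⁻¹ * x)⁻¹))) = 0 := by
    refine Finset.sum_eq_zero fun x hx => Finset.sum_eq_zero fun g _ => ?_
    by_contra hne
    apply (Finset.mem_filter.1 hx).2
    have h1 : kr M (Cu u) b s (u⁻¹ * g) ≠ 0 := right_ne_zero_of_mul (left_ne_zero_of_mul hne)
    have h2 : kr M (Cu u) b s' (u⁻¹ * (x⁻¹ * g⁻¹ * x)⁻¹) ≠ 0 := by
      intro h
      apply hne
      rw [h, map_zero, mul_zero, mul_zero]
    obtain ⟨hc1, hc2⟩ := hm hsC hs _ h1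
    obtain ⟨hd1, hd2⟩ := hm hsC' hs' _ h2
    have k1 : Commute (u⁻¹ * g) u := (huc _ hc1).symm
    have k2 : Commute (u⁻¹ * (x⁻¹ * g⁻¹ * x)⁻¹) u := (huc _ hd1).symm
    have k3 : x⁻¹ * ((u⁻¹ * g) * u) * x = (u⁻¹ * (x⁻¹ * g⁻¹ * x)⁻¹) * u := by
      rw [k1.eq, k2.eq]
      group
    have k4 := T3.H83.part_eq hN hu hu hc2 hd2 k1 k2 k3
    rw [Subgroup.mem_centralizer_singleton_iff]
    calc x * u = x * (x⁻¹ * u * x) := by rw [k4]
      _ = u * x := by group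
  rw [hc, add_zero]
  have hC : ∀ x ∈ Finset.univ.filter (fun g => g ∈ Cu u),
      ∑ g, n * kr M (Cu u) b s (u⁻¹ * g) *
        (n * starRingEnd ℂ (kr M (Cu u) b s' (u⁻¹ * (x⁻¹ * g⁻¹ * x)⁻¹))) =
      n * kr M (Cu u) b s s' := by
    intro x hx
    have hx' : x ∈ Cu u := (Finset.mem_filter.1 hx).2
    have h1 : ∀ g, u⁻¹ * (x⁻¹ * g⁻¹ * x)⁻¹ = x⁻¹ * (u⁻¹ * g) * (x⁻¹)⁻¹ := by
      intro g
      have h2 : Commute u x := huc x hx'
      have h3 : x⁻¹ * u⁻¹ = u⁻¹ * x⁻¹ := by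
        rw [← mul_inv_rev, ← mul_inv_rev, h2.eq]
      calc u⁻¹ * (x⁻¹ * g⁻¹ * x)⁻¹ = (u⁻¹ * x⁻¹) * g * x := by group
        _ = x⁻¹ * (u⁻¹ * g) * (x⁻¹)⁻¹ := by rw [← h3]; group
    simp only [h1, kr_cj_right _ _ (Subgroup.inv_mem _ hx')]
    have h4 := kr_mul (M := M) (Cu u) b s s'
    rw [finsum_eq_sum_of_fintype, ← Equiv.sum_comp (Equiv.mulLeft u⁻¹)] at h4
    simp only [Equiv.coe_mulLeft] at h4
    have h5 : ∀ g, n * kr M (Cu u) b s (u⁻¹ * g) *
        (n * starRingEnd ℂ (kr M (Cu u) b s' (u⁻¹ * g))) =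
        n * n * (kr M (Cu u) b s (u⁻¹ * g) * starRingEnd ℂ (kr M (Cu u) b s' (u⁻¹ * g))) :=
      fun g => by ring
    rw [Finset.sum_congr rfl fun g _ => h5 g, ← Finset.mul_sum, h4, mul_assoc, ← mul_assoc n
      (Nat.card (Cu u) : ℂ), hn, inv_mul_cancel₀ (Nat.cast_ne_zero.2 Nat.card_pos.ne'), one_mul]
  rw [Finset.sum_congr rfl hC, Finset.sum_const, nsmul_eq_mul]
  have hcard : (Finset.univ.filter (fun g => g ∈ Cu u)).card = Nat.card (Cu u) := by
    rw [Nat.card_eq_fintype_card, Fintype.card_subtype]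
  rw [hcard, ← mul_assoc, hn, mul_inv_cancel₀ (Nat.cast_ne_zero.2 Nat.card_pos.ne'), one_mul]

end Pool.Agent.PP.T5.H48
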