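import Pool.Agent.Helper48_AT5.CO3
import Pool.Agent.Helper98_AT3.Fxs
import Pool.Agent.Helper65_KF.Omc

/-!
# Squad AT5, row TWT: the sum of the twisted traces over `A/C`
-/

open scoped BigOperators

set_option linter.unusedSectionVars false

noncomputable section

namespace Pool.Agent.PP.T5.H48

open Pool.Agent.Helper51_AWC Pool.Agent.Helper79_WRA Pool.Agent.PP Pool.Agent.PP.KF
open Pool.Agent.PP.K9 Pool.Agent.PP.K9.H97 Pool.Agent.PP.H75 Pool.Agent.PP.T3 Pool.Agent.PP.T2

attribute [local instance] Ideal.Quotient.field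

section lifts

variable {M : Ideal (integralClosure ℤ ℂ)} [M.IsMaximal]

/-- the lift of an idempotent is unique -/
theorem eh_uniq {H : Type} [Group H] [Finite H] {A : H → ℂ} (hA : IsIdem A)
    (hR : ∀ g, A g ∈ RM M) {e : H → FF M} (he : ∀ g, rr M (A g) = e g) : eh M e = A := by
  classical
  have := Fintype.ofFinite H
  have hee : (fun g => rr M (A g)) = e := funext he
  apply KF.H25.ext_om (KF.H25.eh_cl e) hA.1
  intro χ hχ
  have h1 := (KF.H65.om_RM (M := M) (a := A) hA.1 hR hχ).2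
  rw [hee] at h1
  have h2 : H50.om A χ = 0 ∨ H50.om A χ = 1 := by
    have h3 := H50.om_mul (a := A) hA.1 hχ
    rw [← KF.H25.mulF_eq, hA.2] at h3
    have h4 : H50.om A χ * (H50.om A χ - 1) = 0 := by
      linear_combination -h3
    rcases mul_eq_zero.1 h4 with h | h
    · exact Or.inl h
    · exact Or.inr (sub_eq_zero.1 h)
  by_cases hc : χ ∈ IrrE M e
  · rw [(KF.H25.eh_om e hχ).1 hc]
    rcases h2 with h | h
    · rw [h, rr_zero, hc.2] at h1
      exact absurd h1 zero_ne_one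
    · exact h.symm
  · rw [(KF.H25.eh_om e hχ).2 hc]
    rcases h2 with h | h
    · exact h.symm
    · rw [h, rr_one] at h1
      exact absurd ⟨hχ, h1.symm⟩ hc

/-- the kernel in terms of the lift -/
theorem kern_lift {H : Type} [Group H] [Fintype H] (e : H → FF M) (s s' : H) :
    ∑ᶠ χ ∈ IrrE M e, χ s * starRingEnd ℂ (χ s') = ∑ x, eh M e (x * s⁻¹ * x⁻¹ * s') := by
  classical
  have h0 := KF.trc H (mulF (eh M e) (dl ℂ s)) (dl ℂ s'⁻¹)
  have h1 : ∑ᶠ χ ∈ Irr H, chv (mulF (eh M e) (dl ℂ s)) χ * chv (dl ℂ s'⁻¹) χ =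
      ∑ᶠ χ ∈ IrrE M e, χ s * starRingEnd ℂ (χ s') := by
    have hdl : ∀ (t : H) (χ : H → ℂ), chv (dl ℂ t) χ = χ t := by
      intro t χ
      rw [chv_eq, Finset.sum_eq_single t]
      · unfold dl
        rw [if_pos rfl, one_mul]
      · intro x _ hx
        unfold dl
        rw [if_neg hx, zero_mul]
      · intro h
        exact absurd (Finset.mem_univ _) h
    rw [finsum_mem_eq_finite_toFinset_sum _ (ife_fin e),
      finsum_mem_eq_finite_toFinset_sum _ (irr_finite' (G := H))]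
    symm
    refine (Finset.sum_congr rfl fun χ hχ => ?_).trans
      (Finset.sum_subset (s₁ := (ife_fin e).toFinset) (fun χ hχ => ?_) fun χ hχ hne => ?_)
    · have hχ' := (Set.Finite.mem_toFinset _).1 hχ
      rw [KF.H25.chv_eh e hχ'.1, (KF.H25.eh_om e hχ'.1).1 hχ', one_mul, hdl, hdl,
        H94.irr_star hχ'.1]
    · exact (Set.Finite.mem_toFinset _).2 ((Set.Finite.mem_toFinset _).1 hχ).1
    · have hχ' := (Set.Finite.mem_toFinset _).1 hχ
      rw [KF.H25.chv_eh e hχ', (KF.H25.eh_om e hχ').2 (fun h => hne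
        ((Set.Finite.mem_toFinset _).2 h)), zero_mul, zero_mul]
  rw [← h1, h0, finsum_eq_sum_of_fintype,
    ← Equiv.sum_comp (Equiv.inv H) (fun x => eh M e (x * s⁻¹ * x⁻¹ * s'))]
  refine Finset.sum_congr rfl fun x _ => ?_
  simp only [Equiv.inv_apply, inv_inv]
  rw [finsum_eq_sum_of_fintype, Finset.sum_eq_single (x * s' * x⁻¹)]
  · have h2 : dl ℂ s'⁻¹ (x⁻¹ * (x * s' * x⁻¹)⁻¹ * x) = 1 := by
      unfold dl
      rw [if_pos]
      group
    have h3 : mulF (eh M e) (dl ℂ s) (x * s' * x⁻¹) = eh M e (x * s' * x⁻¹ * s⁻¹) := by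
      rw [KF.H25.mulF_eq]
      change ∑ h, eh M e h * dl ℂ s (h⁻¹ * (x * s' * x⁻¹)) = _
      rw [Finset.sum_eq_single (x * s' * x⁻¹ * s⁻¹)]
      · unfold dl
        rw [if_pos, mul_one]
        group
      · intro h _ hh
        unfold dl
        rw [if_neg, mul_zero]
        intro h4
        apply hh
        rw [← h4]
        group
      · intro h
        exact absurd (Finset.mem_univ _) h
    rw [h2, mul_one, h3, ← KF.H25.eh_cl e (x⁻¹ * s⁻¹ * x * s') (x * s')]
    congr 1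
    group
  · intro g _ hg
    have : dl ℂ s'⁻¹ (x⁻¹ * g⁻¹ * x) = 0 := by
      unfold dl
      rw [if_neg]
      intro h
      apply hg
      have h2 : x⁻¹ * g * x = s' := by
        have := congrArg (·⁻¹) h
        simp only [inv_inv, mul_inv_rev] at this
        rw [← this]
        group
      rw [← h2]
      group
    rw [this, mul_zero]
  · intro h
    exact absurd (Finset.mem_univ _) h

end lifts

section main

variable {G : Type} [Group G] [Finite G] {M : Ideal (integralClosure ℤ ℂ)} [M.IsMaximal]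

/-- conjugation on a normalised subgroup -/
def cjA {C : Subgroup G} {a : G} (ha : a ∈ Subgroup.normalizer (C : Set G)) : C ≃* C where
  toFun c := ⟨a * c * a⁻¹, (Subgroup.mem_normalizer_iff.1 ha c).1 c.2⟩
  invFun c := ⟨a⁻¹ * c * a, by
    have h1 := (Subgroup.mem_normalizer_iff.1 (Subgroup.inv_mem _ ha) (c : G)).1 c.2
    rwa [inv_inv] at h1⟩
  left_inv c := Subtype.ext (by
    change a⁻¹ * (a * (c : G) * a⁻¹) * a = c
    group)
  right_inv c := Subtype.ext (by
    change a * (a⁻¹ * (c : G) * a) * a⁻¹ = c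
    group)
  map_mul' c d := Subtype.ext (by
    change a * ((c : G) * d) * a⁻¹ = a * c * a⁻¹ * (a * d * a⁻¹)
    group)

/-- the lift for the subgroup `C`, extended by zero, is the lift for `A` -/
theorem lift_sub {C A : Subgroup G} (hCA : C ≤ A) (hA : A ≤ Subgroup.normalizer (C : Set G))
    {E : G → FF M} (hE : Ix A E) (hs : ∀ x, x ∉ C → E x = 0) :
    (∀ a ∈ A, ∀ x, H75.ext0 C (eh M (fun t : C => E t)) (a * x * a⁻¹) =
      H75.ext0 C (eh M (fun t : C => E t)) x) ∧
    eh M (fun t : A => E t) = fun t : A => H75.ext0 C (eh M (fun t : C => E t)) t := by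
  have hEc : ∀ a ∈ A, ∀ x, E (a * x * a⁻¹) = E x := by
    intro a ha x
    by_cases hx : x ∈ A
    · exact hE.idem.1 ⟨x, hx⟩ ⟨a, ha⟩
    · rw [hE.supp x hx, hE.supp]
      intro h
      apply hx
      have h1 := A.mul_mem (A.mul_mem (A.inv_mem ha) h) ha
      have h2 : a⁻¹ * (a * x * a⁻¹) * a = x := by group
      rwa [h2] at h1
  have hCid : IsIdem (fun t : C => E t) := by
    refine ⟨fun x y => hEc y (hCA y.2) x, ?_⟩
    have h1 : mulF E E = E := by
      have h2 := mulF_res A E hE.supp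
      rw [hE.idem.2] at h2
      funext x
      by_cases hx : x ∈ A
      · exact congrFun h2 ⟨x, hx⟩
      · rw [hE.supp x hx, mulF_supp A hE.supp hE.supp x hx]
    rw [← mulF_res C E hs, h1]
  obtain ⟨k1, k2, -⟩ := KF.H25.idm M C (fun t : C => E t) hCid
  have hinv : ∀ a ∈ A, ∀ x, H75.ext0 C (eh M (fun t : C => E t)) (a * x * a⁻¹) =
      H75.ext0 C (eh M (fun t : C => E t)) x := by
    intro a ha x
    have hn := hA ha
    by_cases hx : x ∈ C
    · have h1 := T3.H62.eh_equiv (M := M) (cjA hn) hCid.1 ⟨x, hx⟩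
      have h2 : (fun y : C => E ((cjA hn).symm y : C)) = fun t : C => E t := by
        funext y
        change E (a⁻¹ * y * a) = E y
        have h3 := hEc a⁻¹ (A.inv_mem ha) y
        rwa [inv_inv] at h3
      rw [h2] at h1
      have h4 := H75.ext0_apply C (eh M (fun t : C => E t)) (cjA hn ⟨x, hx⟩)
      have h5 := H75.ext0_apply C (eh M (fun t : C => E t)) ⟨x, hx⟩
      exact h4.trans (h1.trans h5.symm)
    · rw [H75.ext0_supp C _ x hx, H75.ext0_supp]
      intro h
      exact hx ((Subgroup.mem_normalizer_iff.1 hn x).2 h)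
  refine ⟨hinv, ?_⟩
  apply eh_uniq
  · refine ⟨fun x y => hinv y y.2 x, ?_⟩
    have h1 := mulF_res A (H75.ext0 C (eh M (fun t : C => E t)))
      (a := H75.ext0 C (eh M (fun t : C => E t)))
      (fun x hx => H75.ext0_supp _ _ x (fun h => hx (hCA h)))
    rw [← h1, ← H75.ext0_mulF, k2.2]
  · intro g
    by_cases hg : (g : G) ∈ C
    · have h1 := H75.ext0_apply C (eh M (fun t : C => E t)) ⟨(g : G), hg⟩
      exact (show H75.ext0 C (eh M (fun t : C => E t)) (g : G) ∈ RM M from by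
        rw [show H75.ext0 C (eh M (fun t : C => E t)) (g : G) = _ from h1]
        exact (k1 _).1)
    · rw [H75.ext0_supp _ _ _ hg]
      exact Subring.zero_mem _
  · intro g
    by_cases hg : (g : G) ∈ C
    · have h1 := H75.ext0_apply C (eh M (fun t : C => E t)) ⟨(g : G), hg⟩
      rw [show H75.ext0 C (eh M (fun t : C => E t)) (g : G) = _ from h1]
      exact (k1 _).2
    · rw [H75.ext0_supp _ _ _ hg, rr_zero, hs _ hg]

/-- the sum over a group as a sum over the cosets -/
theorem sum_cosets {H : Type} [Group H] [Fintype H] (K : Subgroup H) [Fintype (H ⧸ K)]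
    [Fintype K] (F : H → ℂ) : ∑ a, F a = ∑ q : H ⧸ K, ∑ x : K, F (q.out * x) := by
  classical
  rw [← Finset.sum_fiberwise Finset.univ (fun a : H => (QuotientGroup.mk a : H ⧸ K)) F]
  refine Finset.sum_congr rfl fun q _ => ?_
  refine (Finset.sum_bij (fun (x : K) _ => q.out * (x : H)) (fun x _ => ?_)
    (fun x _ y _ h => Subtype.ext (mul_left_cancel h)) (fun a ha => ?_) (fun x _ => rfl)).symm
  · refine Finset.mem_filter.2 ⟨Finset.mem_univ _, ?_⟩
    rw [QuotientGroup.mk_mul_of_mem _ x.2, QuotientGroup.out_eq']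
  · have h1 := (Finset.mem_filter.1 ha).2
    refine ⟨⟨q.out⁻¹ * a, ?_⟩, Finset.mem_univ _, ?_⟩
    · rw [← QuotientGroup.eq, QuotientGroup.out_eq']
      exact h1.symm
    · change q.out * (q.out⁻¹ * a) = a
      group

/-- the twisted kernel -/
theorem kr_twist {C : Subgroup G} {E : G → FF M} {h : G}
    (hh : h ∈ Subgroup.normalizer (C : Set G)) {s : G} (hs : s ∈ C) [Fintype C] :
    kr M C E (h * s * h⁻¹) s = ∑ x : C, H75.ext0 C (eh M (fun t : C => E t))
      ((h * x) * s⁻¹ * (h * x)⁻¹ * s) := by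
  have h1 : kr M C E (h * s * h⁻¹) s = ∑ᶠ κ ∈ IrrE M (fun t : C => E t),
      κ (cjA hh ⟨s, hs⟩) * starRingEnd ℂ (κ ⟨s, hs⟩) := by
    unfold kr
    refine finsum_mem_congr rfl fun κ _ => ?_
    have e1 := H75.ext0_apply C κ (cjA hh ⟨s, hs⟩)
    have e2 := H75.ext0_apply C κ ⟨s, hs⟩
    rw [← e1, ← e2]
    rfl
  rw [h1, kern_lift, ← Equiv.sum_comp (cjA hh).toEquiv]
  refine Finset.sum_congr rfl fun x _ => ?_
  rw [← H75.ext0_apply C (eh M (fun t : C => E t))]
  congr 1
  change (h * (x : G) * h⁻¹) * (h * s * h⁻¹)⁻¹ * (h * (x : G) * h⁻¹)⁻¹ * s = _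
  group

theorem twt (lrk : T3.LrkStmt) : TwtStmt := by
  intro ℓ _ M _ hM G _ _ C A hCA hA hn E hE hs
  classical
  have := Fintype.ofFinite G
  have := Fintype.ofFinite A
  have := Fintype.ofFinite C
  have := Fintype.ofFinite (C.subgroupOf A)
  have := Fintype.ofFinite (A ⧸ C.subgroupOf A)
  obtain ⟨n, hn⟩ := hn
  obtain ⟨hinv, hlift⟩ := lift_sub hCA hA hE hs
  have hnorm : (C.subgroupOf A).Normal := by
    refine ⟨fun x hx g => ?_⟩
    rw [Subgroup.mem_subgroupOf] at hx ⊢
    exact (Subgroup.mem_normalizer_iff.1 (hA g.2) x).1 hx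
  have hregC : ∀ s ∈ A, Reg ℓ s → s ∈ C := by
    intro s hsA hsr
    have h1 : (⟨s, hsA⟩ : A) ^ (C.subgroupOf A).index ∈ C.subgroupOf A :=
      Subgroup.pow_index_mem _ _
    have h2 : (C.subgroupOf A).index = ℓ ^ n := hn
    rw [h2, Subgroup.mem_subgroupOf] at h1
    have h3 : s ^ ℓ ^ n ∈ C := h1
    have h4 : (ℓ ^ n).Coprime (orderOf s) := Nat.Coprime.pow_left n (Nat.Coprime.symm hsr)
    obtain ⟨m, hm⟩ := exists_pow_eq_self_of_coprime h4
    rw [← hm]
    exact C.pow_mem h3 m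
  have hS : ∀ f : G → ℂ, ∑ᶠ (s : G) (_ : s ∈ C ∧ Reg ℓ s), f s =
      ∑ s : A, if Reg ℓ (s : G) then f s else 0 := by
    intro f
    rw [finsum_eq_sum_of_fintype]
    have h1 : ∑ s : A, (if Reg ℓ (s : G) then f s else 0) =
        ∑ s ∈ Finset.univ.filter (fun s : G => s ∈ A), if Reg ℓ s then f s else 0 := by
      refine Finset.sum_bij (fun (c : A) _ => (c : G)) (fun c _ => ?_)
        (fun c _ d _ h => Subtype.ext h)
        (fun g hg => ⟨⟨g, (Finset.mem_filter.1 hg).2⟩, Finset.mem_univ _, rfl⟩) (fun c _ => rfl)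
      exact Finset.mem_filter.2 ⟨Finset.mem_univ _, c.2⟩
    rw [h1, Finset.sum_filter]
    refine Finset.sum_congr rfl fun s _ => ?_
    rw [finsum_eq_if]
    by_cases hr : Reg ℓ s
    · by_cases hsA : s ∈ A
      · rw [if_pos ⟨hregC s hsA hr, hr⟩, if_pos hsA, if_pos hr]
      · rw [if_neg (fun h => hsA (hCA h.1)), if_neg hsA]
    · rw [if_neg (fun h => hr h.2)]
      by_cases hsA : s ∈ A
      · rw [if_pos hsA, if_neg hr]
      · rw [if_neg hsA]
  set B : G → ℂ := H75.ext0 C (eh M (fun t : C => E t)) with hB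
  -- the left side
  have hcard : (Nat.card A : ℂ) = (C.relIndex A : ℕ) * Nat.card C := by
    have h1 := Subgroup.card_mul_index (C.subgroupOf A)
    have h2 : Nat.card (C.subgroupOf A) = Nat.card C :=
      Nat.card_congr (Subgroup.subgroupOfEquivOfLe hCA).toEquiv
    rw [h2] at h1
    rw [← h1]
    push_cast
    rw [mul_comm]
    rfl
  have hC0 : (Nat.card C : ℂ) ≠ 0 := Nat.cast_ne_zero.2 Nat.card_pos.ne'
  have hI0 : ((C.relIndex A : ℕ) : ℂ) ≠ 0 := by
    intro h
    rw [h, zero_mul] at hcard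
    exact (Nat.cast_ne_zero (R := ℂ)).2 (Nat.card_pos (α := A)).ne' hcard
  have hL : ((C.relIndex A : ℕ) : ℂ) * (ln (fun t : A => E t) : ℂ) =
      (Nat.card C : ℂ)⁻¹ * ∑ s : A, if Reg ℓ (s : G) then
        ∑ a : A, B ((a : G) * (s : G)⁻¹ * (a : G)⁻¹ * s) else 0 := by
    rw [lrk ℓ M hM A (fun t : A => E t) hE.idem, hcard, mul_inv, ← mul_assoc, ← mul_assoc,
      mul_inv_cancel₀ hI0, one_mul, finsum_eq_sum_of_fintype]
    congr 1
    refine Finset.sum_congr rfl fun s _ => ?_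
    rw [finsum_eq_if]
    by_cases hr : Reg ℓ s
    · rw [if_pos hr, if_pos (reg_coe'.2 hr), kern_lift, hlift]
      rfl
    · rw [if_neg hr, if_neg (fun h => hr (reg_coe'.1 h))]
  have hR : ∀ q : A ⧸ C.subgroupOf A, tw M ℓ C E ((q.out : A) : G) =
      (Nat.card C : ℂ)⁻¹ * ∑ s : A, if Reg ℓ (s : G) then
        ∑ x : C.subgroupOf A, B (((q.out * x : A) : G) * (s : G)⁻¹ *
          ((q.out * x : A) : G)⁻¹ * s) else 0 := by
    intro q
    rw [tw, hS (fun s => kr M C E (((q.out : A) : G) * s * ((q.out : A) : G)⁻¹) s)]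
    congr 1
    refine Finset.sum_congr rfl fun s _ => ?_
    by_cases hr : Reg ℓ (s : G)
    · rw [if_pos hr, if_pos hr, kr_twist (hA (q.out : A).2) (hregC s s.2 hr),
        ← Equiv.sum_comp (Subgroup.subgroupOfEquivOfLe hCA).toEquiv]
      rfl
    · rw [if_neg hr, if_neg hr]
  rw [hL, finsum_eq_sum_of_fintype, Finset.sum_congr rfl fun q _ => hR q, ← Finset.mul_sum,
    Finset.sum_comm]
  congr 1
  refine Finset.sum_congr rfl fun s _ => ?_
  by_cases hr : Reg ℓ (s : G)
  · simp only [if_pos hr]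
    exact sum_cosets (C.subgroupOf A) (fun a : A => B ((a : G) * (s : G)⁻¹ * (a : G)⁻¹ * s))
  · simp only [if_neg hr]
    rw [Finset.sum_const_zero]

end main

end Pool.Agent.PP.T5.H48
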