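import Pool.Agent.Helper48_AT5.CO3
import Pool.Agent.Helper98_AT3.Fxs

/-!
# Squad AT5, row TWY: the contribution of an `ℓ`-element which is conjugate to its power
-/

open scoped BigOperators

set_option linter.unusedSectionVars false

noncomputable section

namespace Pool.Agent.PP.T5.H48

open Pool.Agent.Helper51_AWC Pool.Agent.Helper79_WRA Pool.Agent.PP Pool.Agent.PP.KF
open Pool.Agent.PP.K9 Pool.Agent.PP.K9.H97 Pool.Agent.PP.H75 Pool.Agent.PP.T3 Pool.Agent.PP.T2

attribute [local instance] Ideal.Quotient.field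

/-- the kernel depends only on the restriction -/
theorem kr_res {G : Type} [Group G] {M : Ideal (integralClosure ℤ ℂ)} [M.IsMaximal]
    {C : Subgroup G} {b b' : G → FF M} (h : (fun t : C => b t) = fun t : C => b' t) (s g : G) :
    kr M C b s g = kr M C b' s g := by
  unfold kr
  rw [h]

theorem gv_res {G : Type} [Group G] {M : Ideal (integralClosure ℤ ℂ)} [M.IsMaximal]
    {C : Subgroup G} {b b' : G → FF M} (h : (fun t : C => b t) = fun t : C => b' t) (w : G)
    (χ : G → ℂ) : gv M C w b χ = gv M C w b' χ := by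
  unfold gv
  rw [h]

theorem twy (smg : T3.SmgStmt) (hC : Co3Stmt) : TwyStmt := by
  intro ℓ _ M _ hM G _ _ e he y hy1 hy n g hg
  classical
  have := Fintype.ofFinite G
  have := Fintype.ofFinite (Cu y)
  have hF : GoodF ℓ (FF M) := H50.fld ℓ Fact.out M hM
  have heC : IsIdem (fun t : Cu y => e t) := T3.H98.idem_cu hF he hy
  -- the restriction of `e`
  set b : G → FF M := H75.ext0 (Cu y) (fun t : Cu y => e t) with hb
  have hbb : (fun t : Cu y => b t) = fun t : Cu y => e t :=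
    funext (H75.ext0_apply (Cu y) _)
  have hbx : Ix (Cu y) b := by
    refine ⟨H75.ext0_supp _ _, ?_⟩
    rw [hbb]
    exact heC
  obtain ⟨f1, f2⟩ := H46.isIdem_sub (H46.isIdem_one (F := FF M) (H := Cu y)) heC
    (H46.one_mulF _)
  have hval : ∀ s ∈ Cu y, Reg ℓ s → ∀ χ ∈ IrrE M e, gv M (Cu y) (y * s) b χ = χ (y * s) := by
    intro s hsC hs χ hχ
    have h1 := (smg ℓ M hM G y s hy1 hy hsC hs _ f1 e he).2 f2 χ hχ
    have h2 : eh M (dl (FF M) (1 : Cu y)) = eh M (fun t : Cu y => e t) +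
        eh M (dl (FF M) (1 : Cu y) - fun t : Cu y => e t) := by
      rw [← T3.H98.eh_add heC f1 f2, add_sub_cancel]
    have h3 : gbv (Cu y) (y * s) (eh M (dl (FF M) (1 : Cu y))) χ = χ (y * s) := by
      rw [gbv, finsum_eq_sum_of_fintype, T3.H98.eh_one, Finset.sum_eq_single (1 : Cu y)]
      · unfold dl
        rw [if_pos rfl, one_mul, Subgroup.coe_one, mul_one]
      · intro t _ ht
        unfold dl
        rw [if_neg ht, zero_mul]
      · intro h
        exact absurd (Finset.mem_univ _) h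
    have h4 : gbv (Cu y) (y * s) (eh M (dl (FF M) (1 : Cu y))) χ =
        gbv (Cu y) (y * s) (eh M (fun t : Cu y => e t)) χ +
        gbv (Cu y) (y * s) (eh M (dl (FF M) (1 : Cu y) - fun t : Cu y => e t)) χ := by
      rw [h2, gbv, gbv, gbv, finsum_eq_sum_of_fintype, finsum_eq_sum_of_fintype,
        finsum_eq_sum_of_fintype, ← Finset.sum_add_distrib]
      refine Finset.sum_congr rfl fun t _ => ?_
      rw [Pi.add_apply, add_mul]
    rw [h1, add_zero, h3] at h4
    rw [gv, hbb, ← h4]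
  have hzero : ∀ s ∈ Cu y, Reg ℓ s → ∀ χ ∈ Irr G, χ ∉ IrrE M e →
      gv M (Cu y) (y * s) b χ = 0 := by
    intro s hsC hs χ hχ hne
    rw [gv, hbb]
    exact (smg ℓ M hM G y s hy1 hy hsC hs _ heC e he).1 heC.2 χ hχ hne
  -- the inner products
  have hin : ∀ s ∈ Cu y, Reg ℓ s → ∀ s' ∈ Cu y, Reg ℓ s' →
      ∑ᶠ χ ∈ IrrE M e, χ (y * s') * starRingEnd ℂ (χ (y * s)) = kr M (Cu y) e s' s := by
    intro s hsC hs s' hsC' hs'
    rw [← kr_res hbb, ← hC ℓ M hM G y hy b hbx s' hsC' hs' s hsC hs,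
      finsum_mem_eq_finite_toFinset_sum _ (ife_fin e),
      finsum_mem_eq_finite_toFinset_sum _ (irr_finite' (G := G))]
    have h1 : ∑ χ ∈ (ife_fin e).toFinset, χ (y * s') * starRingEnd ℂ (χ (y * s)) =
        ∑ χ ∈ (ife_fin e).toFinset,
          gv M (Cu y) (y * s') b χ * starRingEnd ℂ (gv M (Cu y) (y * s) b χ) := by
      refine Finset.sum_congr rfl fun χ hχ => ?_
      rw [Set.Finite.mem_toFinset] at hχ
      rw [hval s' hsC' hs' χ hχ, hval s hsC hs χ hχ]
    rw [h1]
    apply Finset.sum_subset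
    · intro χ hχ
      exact (Set.Finite.mem_toFinset _).2 ((Set.Finite.mem_toFinset _).1 hχ).1
    · intro χ hχ hne
      rw [hzero s' hsC' hs' χ ((Set.Finite.mem_toFinset _).1 hχ) (fun h => hne
        ((Set.Finite.mem_toFinset _).2 h)), zero_mul]
  -- the two sides
  rw [tw, ← mul_assoc, mul_inv_cancel₀ (Nat.cast_ne_zero.2 Nat.card_pos.ne'), one_mul]
  refine finsum_congr fun s => finsum_congr fun hs => ?_
  have hs' : g⁻¹ * s * g⁻¹⁻¹ ∈ Cu y := by
    rw [Subgroup.mem_centralizer_singleton_iff]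
    have h1 : Commute s y := Subgroup.mem_centralizer_singleton_iff.1 hs.1
    have h2 : Commute s (g * y * g⁻¹) := by
      rw [hg]
      exact h1.pow_right n
    calc g⁻¹ * s * g⁻¹⁻¹ * y = g⁻¹ * (s * (g * y * g⁻¹)) * g := by group
      _ = g⁻¹ * ((g * y * g⁻¹) * s) * g := by rw [h2.eq]
      _ = y * (g⁻¹ * s * g⁻¹⁻¹) := by group
  have hr' : Reg ℓ (g⁻¹ * s * g⁻¹⁻¹) := by
    have h1 : Reg ℓ s := hs.2
    unfold Reg at h1 ⊢
    have h2 : orderOf (g⁻¹ * s * g⁻¹⁻¹) = orderOf s := by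
      have := orderOf_injective (MulAut.conj g⁻¹).toMonoidHom (MulAut.conj g⁻¹).injective s
      exact this
    rwa [h2]
  rw [← hin s hs.1 hs.2 _ hs' hr']
  refine finsum_mem_congr rfl fun χ hχ => ?_
  congr 1
  have h1 := irr_conj hχ.1 (y * (g⁻¹ * s * g⁻¹⁻¹)) g
  rw [← h1]
  congr 1
  rw [← hg]
  group

end Pool.Agent.PP.T5.H48
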